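import Pool.Agent.Helper18.FF3.Stmts

/-!
# Module BET: product formula, comparison of two embeddings
-/

set_option autoImplicit false

namespace Pool.Agent.Helper18.FF3

open Polynomial Pool.Agent.Helper14.BSC Pool.Agent.Helper60.FF

/-- the norm relation for the approximate values -/
theorem bet_norm {F k : Type} [Field F] [Field k]
    [Algebra (RatFunc F) k] {p : ℕ} [Fact p.Prime] (T : TS k (RatFunc F) p)
    {e : k} {r z : RatFunc F} {b : F} {m : ℕ}
    (hn : Algebra.norm (RatFunc F) e = r * (RatFunc.C b * z ^ m))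
    {y w : Fin T.n → ℂ_[p]} (h : ∀ i, T.σ i e = y i * w i ^ m) :
    (∏ i, y i) * (∏ i, w i) ^ m = T.j r * (T.j (RatFunc.C b) * T.j z ^ m) := by
  have h1 := T.norm e
  rw [hn, map_mul, map_mul, map_pow] at h1
  rw [← h1, ← Finset.prod_pow, ← Finset.prod_mul_distrib]
  exact Finset.prod_congr rfl fun i _ => (h i).symm

/-- algebra of the two relations -/
theorem bet_alg {K : Type} [Field K] {Y Y' W W' r r' β z z' : K} {m : ℕ}
    (hW : W ≠ 0) (hW' : W' ≠ 0) (hr : r ≠ 0) (hr' : r' ≠ 0) (hβ : β ≠ 0) (hz' : z' ≠ 0)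
    (h : Y * W ^ m = r * (β * z ^ m)) (h' : Y' * W' ^ m = r' * (β * z' ^ m)) :
    (z * W' / (z' * W)) ^ m = Y * r' / (Y' * r) := by
  have e1 : Y = r * (β * z ^ m) / W ^ m := by
    rw [← h, mul_div_assoc, div_self (pow_ne_zero m hW), mul_one]
  have e2 : Y' = r' * (β * z' ^ m) / W' ^ m := by
    rw [← h', mul_div_assoc, div_self (pow_ne_zero m hW'), mul_one]
  rw [e1, e2, div_pow, mul_pow, mul_pow]
  have a1 : W ^ m ≠ 0 := pow_ne_zero m hW
  have a2 : W' ^ m ≠ 0 := pow_ne_zero m hW'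
  have a3 : z' ^ m ≠ 0 := pow_ne_zero m hz'
  generalize W ^ m = w at *
  generalize W' ^ m = w' at *
  generalize z' ^ m = s' at *
  generalize z ^ m = s at *
  field_simp

theorem st_BET (hLIM : ST_LIM) : ST_BET := by
  intro F k Ω _ _ _ _ _ _ _ _ D p _ T T' P P' hC x r hr hNC hx hx' hφ hφ'
  obtain ⟨E₀, hE₀, hE₀m⟩ := T.fin
  obtain ⟨E₀', hE₀', hE₀m'⟩ := T'.fin
  have := hE₀
  have := hE₀'
  have : ∀ i, FiniteDimensional ℚ_[p] (P i).E := fun i => (P i).finE
  have : ∀ i, FiniteDimensional ℚ_[p] (P' i).E := fun i => (P' i).finE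
  have f1 : FiniteDimensional ℚ_[p] (⨆ i, (P i).E : IntermediateField ℚ_[p] ℂ_[p]) :=
    IntermediateField.finiteDimensional_iSup_of_finite
  have f2 : FiniteDimensional ℚ_[p] (⨆ i, (P' i).E : IntermediateField ℚ_[p] ℂ_[p]) :=
    IntermediateField.finiteDimensional_iSup_of_finite
  have f3 : FiniteDimensional ℚ_[p] (E₀ ⊔ ⨆ i, (P i).E : IntermediateField ℚ_[p] ℂ_[p]) :=
    IntermediateField.finiteDimensional_sup _ _
  have f4 : FiniteDimensional ℚ_[p] (E₀' ⊔ ⨆ i, (P' i).E : IntermediateField ℚ_[p] ℂ_[p]) :=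
    IntermediateField.finiteDimensional_sup _ _
  obtain ⟨E, hE⟩ : ∃ E : IntermediateField ℚ_[p] ℂ_[p],
      E = (E₀ ⊔ ⨆ i, (P i).E) ⊔ (E₀' ⊔ ⨆ i, (P' i).E) := ⟨_, rfl⟩
  have hEfin : FiniteDimensional ℚ_[p] E := by
    rw [hE]
    exact IntermediateField.finiteDimensional_sup _ _
  have l1 : E₀ ≤ E := by rw [hE]; exact le_sup_left.trans le_sup_left
  have l2 : E₀' ≤ E := by rw [hE]; exact le_sup_left.trans le_sup_right
  have l3 : ∀ i, (P i).E ≤ E := fun i => by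
    rw [hE]
    exact ((le_iSup (fun i => (P i).E) i).trans le_sup_right).trans le_sup_left
  have l4 : ∀ i, (P' i).E ≤ E := fun i => by
    rw [hE]
    exact ((le_iSup (fun i => (P' i).E) i).trans le_sup_right).trans le_sup_right
  have hjr : T.j r ≠ 0 := by
    rw [Ne, map_eq_zero]; exact hr
  have hjr' : T'.j r ≠ 0 := by
    rw [Ne, map_eq_zero]; exact hr
  have hjE : ∀ t, T.j t ∈ E := by
    intro t
    rw [← T.res ⟨0, T.pos⟩ t]
    exact l1 (hE₀m _ _)
  have hjE' : ∀ t, T'.j t ∈ E := by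
    intro t
    rw [← T'.res ⟨0, T'.pos⟩ t]
    exact l2 (hE₀m' _ _)
  have hPr : (∏ i, (P i).φ ⟨x, hx i⟩) ≠ 0 := Finset.prod_ne_zero_iff.2 fun i _ => hφ i
  have hPp : (∏ i, (P' i).φ ⟨x, hx' i⟩) ≠ 0 := Finset.prod_ne_zero_iff.2 fun i _ => hφ' i
  have key : ((∏ i, (P i).φ ⟨x, hx i⟩) * T'.j r) / ((∏ i, (P' i).φ ⟨x, hx' i⟩) * T.j r) = 1 := by
    refine hLIM p E hEfin _ (div_ne_zero (mul_ne_zero hPr hjr') (mul_ne_zero hPp hjr)) ?_
    intro n hn δ hδ
    have hcont : ContinuousAt (fun y : (Fin T.n → ℂ_[p]) × (Fin T'.n → ℂ_[p]) =>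
        ((∏ i, y.1 i) * T'.j r) / ((∏ i, y.2 i) * T.j r))
        (fun i => (P i).φ ⟨x, hx i⟩, fun i => (P' i).φ ⟨x, hx' i⟩) := by
      have c1 : Continuous fun y : (Fin T.n → ℂ_[p]) × (Fin T'.n → ℂ_[p]) =>
          (∏ i, y.1 i) * T'.j r := by fun_prop
      have c2 : Continuous fun y : (Fin T.n → ℂ_[p]) × (Fin T'.n → ℂ_[p]) =>
          (∏ i, y.2 i) * T.j r := by fun_prop
      exact c1.continuousAt.div c2.continuousAt (mul_ne_zero hPp hjr)
    obtain ⟨δ', hδ', hδ''⟩ := Metric.continuousAt_iff.1 hcont δ hδ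
    obtain ⟨e, g, he, hg, b, z, hb, hz, hnorm⟩ := hNC n hn
    choose w hw y hy hyd hcy using fun i => (P i).kum ⟨x, hx i⟩ (hφ i) n hn δ' hδ' e g hg
    choose w' hw' y' hy' hyd' hcy' using fun i => (P' i).kum ⟨x, hx' i⟩ (hφ' i) n hn δ' hδ' e g hg
    have hσ : ∀ i, T.σ i e ≠ 0 := fun i => by
      rw [Ne, map_eq_zero]; exact he
    have hσ' : ∀ i, T'.σ i e ≠ 0 := fun i => by
      rw [Ne, map_eq_zero]; exact he
    have hwne : ∀ i, w i ≠ 0 := by
      intro i h0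
      apply hσ i
      rw [hcy i, h0, zero_pow hn.ne', mul_zero]
    have hwne' : ∀ i, w' i ≠ 0 := by
      intro i h0
      apply hσ' i
      rw [hcy' i, h0, zero_pow hn.ne', mul_zero]
    have hW : (∏ i, w i) ≠ 0 := Finset.prod_ne_zero_iff.2 fun i _ => hwne i
    have hW' : (∏ i, w' i) ≠ 0 := Finset.prod_ne_zero_iff.2 fun i _ => hwne' i
    have r1 := bet_norm T hnorm hcy
    have r2 := bet_norm T' hnorm hcy'
    rw [← hC b] at r2
    have hβ : T.j (RatFunc.C b) ≠ 0 := by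
      rw [Ne, map_eq_zero, map_eq_zero]
      exact hb
    have hz' : T'.j z ≠ 0 := by
      rw [Ne, map_eq_zero]
      exact hz
    refine ⟨T.j z * (∏ i, w' i) / (T'.j z * ∏ i, w i), ?_, ?_⟩
    · exact div_mem (mul_mem (hjE z) (prod_mem fun i _ => l4 i (hw' i)))
        (mul_mem (hjE' z) (prod_mem fun i _ => l3 i (hw i)))
    · rw [bet_alg hW hW' hjr hjr' hβ hz' r1 r2, ← dist_eq_norm]
      refine hδ'' (x := (y, y')) ?_
      rw [Prod.dist_eq, max_lt_iff]
      constructor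
      · rw [dist_pi_lt_iff hδ']
        intro i
        rw [dist_eq_norm]
        exact hyd i
      · rw [dist_pi_lt_iff hδ']
        intro i
        rw [dist_eq_norm]
        exact hyd' i
  rw [div_eq_one_iff_eq (mul_ne_zero hPp hjr)] at key
  exact key

end Pool.Agent.Helper18.FF3
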