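import Pool.Agent.Helper18.FF3.Stmts

/-!
# Module KDR: the norms of the classes are given by `ρ` up to constants
-/

set_option autoImplicit false

namespace Pool.Agent.Helper18.FF3

open Polynomial Pool.Agent.Helper14.BSC Pool.Agent.Helper60.FF

variable {p : ℕ} [hp : Fact p.Prime]

/-- the coefficients of a polynomial lie in a finite extension -/
theorem kdr_poly {A : Subfield ℂ_[p]} (hA : ∀ a ∈ A, IsAlgebraic ℚ_[p] a) (P : Polynomial A) :
    ∃ E : IntermediateField ℚ_[p] ℂ_[p], FiniteDimensional ℚ_[p] E ∧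
      ∀ j, ((P.coeff j : A) : ℂ_[p]) ∈ E := by
  classical
  obtain ⟨S, hS⟩ : ∃ S : Set ℂ_[p],
      S = (fun j => ((P.coeff j : A) : ℂ_[p])) '' (P.support : Set ℕ) := ⟨_, rfl⟩
  have hfin : S.Finite := by
    rw [hS]
    exact (Finset.finite_toSet _).image _
  have : Finite S := hfin
  refine ⟨IntermediateField.adjoin ℚ_[p] S, ?_, ?_⟩
  · apply IntermediateField.finiteDimensional_adjoin
    intro x hx
    rw [hS] at hx
    obtain ⟨j, _, rfl⟩ := hx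
    exact (hA _ (P.coeff j).2).isIntegral
  · intro j
    by_cases hj : j ∈ P.support
    · apply IntermediateField.subset_adjoin
      rw [hS]
      exact ⟨j, hj, rfl⟩
    · rw [notMem_support_iff.1 hj]
      exact zero_mem _

/-- monotonicity of `Ov` -/
theorem kdr_mono {A : Subfield ℂ_[p]} {E E' : IntermediateField ℚ_[p] ℂ_[p]} (h : E ≤ E')
    {g : RatFunc A} (hg : Ov A E g) : Ov A E' g := by
  obtain ⟨P, Q, h0, h1, h2, h3⟩ := hg
  exact ⟨P, Q, h0, fun j => h (h1 j), fun j => h (h2 j), h3⟩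

/-- every rational function is defined over a finite extension -/
theorem kdr_ov {A : Subfield ℂ_[p]} (hA : ∀ a ∈ A, IsAlgebraic ℚ_[p] a) (g : RatFunc A) :
    ∃ E : IntermediateField ℚ_[p] ℂ_[p], FiniteDimensional ℚ_[p] E ∧ Ov A E g := by
  obtain ⟨E1, hE1, h1⟩ := kdr_poly hA g.num
  obtain ⟨E2, hE2, h2⟩ := kdr_poly hA g.denom
  refine ⟨E1 ⊔ E2, IntermediateField.finiteDimensional_sup _ _, g.num, g.denom,
    g.denom_ne_zero, fun j => (le_sup_left : E1 ≤ E1 ⊔ E2) (h1 j),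
    fun j => (le_sup_right : E2 ≤ E1 ⊔ E2) (h2 j), ?_⟩
  have h3 : algebraMap (Polynomial A) (RatFunc A) g.denom ≠ 0 := by
    rw [Ne, map_eq_zero_iff _ (RatFunc.algebraMap_injective A)]
    exact g.denom_ne_zero
  have h4 := RatFunc.num_div_denom g
  rw [div_eq_iff h3] at h4
  exact h4.symm

/-- a common field of definition -/
theorem kdr_common {A : Subfield ℂ_[p]} (hA : ∀ a ∈ A, IsAlgebraic ℚ_[p] a)
    (E₀ : IntermediateField ℚ_[p] ℂ_[p]) (h₀ : FiniteDimensional ℚ_[p] E₀)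
    (g1 g2 g3 g4 : RatFunc A) :
    ∃ E : IntermediateField ℚ_[p] ℂ_[p], FiniteDimensional ℚ_[p] E ∧ E₀ ≤ E ∧
      Ov A E g1 ∧ Ov A E g2 ∧ Ov A E g3 ∧ Ov A E g4 := by
  obtain ⟨E1, f1, o1⟩ := kdr_ov hA g1
  obtain ⟨E2, f2, o2⟩ := kdr_ov hA g2
  obtain ⟨E3, f3, o3⟩ := kdr_ov hA g3
  obtain ⟨E4, f4, o4⟩ := kdr_ov hA g4
  have a1 : FiniteDimensional ℚ_[p] (E₀ ⊔ E1 : IntermediateField ℚ_[p] ℂ_[p]) :=
    IntermediateField.finiteDimensional_sup _ _
  have a2 : FiniteDimensional ℚ_[p] (E₀ ⊔ E1 ⊔ E2 : IntermediateField ℚ_[p] ℂ_[p]) :=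
    IntermediateField.finiteDimensional_sup _ _
  have a3 : FiniteDimensional ℚ_[p] (E₀ ⊔ E1 ⊔ E2 ⊔ E3 : IntermediateField ℚ_[p] ℂ_[p]) :=
    IntermediateField.finiteDimensional_sup _ _
  refine ⟨E₀ ⊔ E1 ⊔ E2 ⊔ E3 ⊔ E4, IntermediateField.finiteDimensional_sup _ _, ?_, ?_, ?_, ?_,
    ?_⟩
  · exact le_sup_left.trans (le_sup_left.trans (le_sup_left.trans le_sup_left))
  · exact kdr_mono (le_sup_right.trans (le_sup_left.trans (le_sup_left.trans le_sup_left))) o1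
  · exact kdr_mono (le_sup_right.trans (le_sup_left.trans le_sup_left)) o2
  · exact kdr_mono (le_sup_right.trans le_sup_left) o3
  · exact kdr_mono le_sup_right o4

theorem st_KDR (hMPW : ST_MPW) (hEVH : ST_EVH) (hFCT : ST_FCT) (hOVF : ST_OVF) : ST_KDR := by
  intro p n _ K ρ hρ hprop m hm c c' hc hc'
  have hacl := K.acl
  obtain ⟨E, hEfin, hE0, o1, o2, o3, o4⟩ := kdr_common K.alg K.E₀ K.fin₀ c c' (ρ.eval c)
    (ρ.eval c')
  have hH : K.H m c ≠ 0 := K.H0 m c hm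
  have hH' : K.H m c' ≠ 0 := K.H0 m c' hm
  have oH : Ov K.A E (K.H m c) := K.Hdef E hEfin hE0 m c hm o1
  have oH' : Ov K.A E (K.H m c') := K.Hdef E hEfin hE0 m c' hm o2
  obtain ⟨θ, hθ⟩ : ∃ θ, θ = K.H m c * ρ.eval c' / (K.H m c' * ρ.eval c) := ⟨_, rfl⟩
  have hθ0 : θ ≠ 0 := by
    rw [hθ]
    exact div_ne_zero (mul_ne_zero hH hc') (mul_ne_zero hH' hc)
  have oθ : Ov K.A E θ := by
    obtain ⟨F, hF⟩ := hOVF p K.A E
    rw [← hF, hθ]
    exact div_mem (mul_mem ((hF _).2 oH) ((hF _).2 o4)) (mul_mem ((hF _).2 oH') ((hF _).2 o3))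
  have hdvd : ∀ v : K.A, (m : ℤ) ∣ ordv K.A v θ := by
    refine hMPW p K.A K.cnt K.alg K.acl E hEfin m hm θ hθ0 ?_
    intro E' hE'fin hEE' τ hτE hτA
    obtain ⟨e, he, _, _, _, _⟩ := hEVH p K.A K.acl τ hτA
    have hτalg : IsAlgebraic ℚ_[p] τ := by
      have h1 : IsAlgebraic ℚ_[p] (⟨τ, hτE⟩ : E') := Algebra.IsAlgebraic.isAlgebraic _
      exact (isAlgebraic_algebraMap_iff (A := ℂ_[p]) (algebraMap E' ℂ_[p]).injective).2 h1
    obtain ⟨r, hr, hcoef⟩ := hprop τ hτalg hτA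
    have hχ : K.χ τ = C r * ρ.map e := by
      ext j
      rw [coeff_C_mul, coeff_map, hcoef j, he]
    have hev : ∀ d : RatFunc K.A, (K.χ τ).eval (ev K.A τ d) = r * e (ρ.eval d) := by
      intro d
      rw [hχ, eval_mul, eval_C, ← he, eval_map_apply]
    have hne : (K.χ τ).eval (ev K.A τ c) ≠ 0 := by
      rw [hev]
      exact mul_ne_zero hr ((map_ne_zero e).2 hc)
    have hne' : (K.χ τ).eval (ev K.A τ c') ≠ 0 := by
      rw [hev]
      exact mul_ne_zero hr ((map_ne_zero e).2 hc')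
    obtain ⟨w, hwE, hw0, hw⟩ := K.kum E' hE'fin (hE0.trans hEE') c c' (kdr_mono hEE' o1)
      (kdr_mono hEE' o2) τ hτE hτA m hm hne hne'
    refine ⟨w⁻¹, inv_mem hwE, ?_⟩
    rw [hev, hev, ← he, ← he] at hw
    rw [← he, hθ, map_div₀, map_mul, map_mul, inv_pow]
    have n1 : e (K.H m c') ≠ 0 := (map_ne_zero e).2 hH'
    have n2 : e (ρ.eval c) ≠ 0 := (map_ne_zero e).2 hc
    have n3 : w ^ m ≠ 0 := pow_ne_zero m hw0
    rw [div_eq_iff (mul_ne_zero n1 n2), eq_comm, inv_mul_eq_iff_eq_mul₀ n3]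
    have hw2 : e (ρ.eval c) * e (K.H m c') = e (ρ.eval c') * e (K.H m c) * w ^ m := by
      refine mul_left_cancel₀ hr ?_
      linear_combination hw
    linear_combination hw2
  obtain ⟨b, z, _, hb, hz, _, hbz⟩ := hFCT p K.A K.acl E m hm θ hθ0 oθ hdvd
  refine ⟨b, z, hb, hz, ?_⟩
  rw [← hbz, hθ, mul_div_cancel₀]
  exact mul_ne_zero hH' hc

end Pool.Agent.Helper18.FF3
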